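import Pool.Agent.MP_f65396_co.h15l.Spec
import Pool.Agent.MP_f65396_co.h15n.SpecA

/-! Nearly complete graphs with many further vertices: the ordered core with external leaves. -/

set_option autoImplicit false

namespace Pool.Agent.MP_f65396_co.h32n

open Finset
open Pool.Agent.MP_f65396_co.h15o (Ori2S)
open Pool.Agent.MP_f65396_co.h15l (sg' pcost)

/-- The ordered complement graph; `ea p` edges of the colour `p` outside the second and third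
star and `el p` edges of the second star are external. -/
structure H4 (N n c s D B m t : ℕ) (h : ℕ → ℕ → Prop) [DecidableRel h] (ω bf : ℕ → ℕ)
    (S : ℕ → Finset ℕ) (ea el : ℕ → ℕ) : Prop where
  hs : ∀ u v, h u v → h v u
  hi : ∀ u, ¬ h u u
  hN : N = n + c
  hc : 2 ≤ c
  hcD : c ≤ D
  hsD : s ≤ D
  htD : t ≤ D
  hB : 20 * D ≤ B
  hm : m = 150 * B
  hn : 500 * B ≤ n
  hn' : n < 500 * B + 500
  hD : ∀ x, s ≤ x → x < N → ((range N).filter (h x)).card ≤ D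
  hsum : ∑ x ∈ range N, ((range N).filter (h x)).card + n * (n + 1) ≤
    N * (N - 1) + t * (t + 1) + 2 * ∑ x ∈ range N, (ea x + el x)
  par : ∀ i < s, h i (ω i)
  wr : ∀ i < s, N - m - (3 * B + 2 * D) ≤ ω i ∧ ω i < N - m - (3 * B + 2 * D) + B
  wi : ∀ i < s, ∀ k < s, ω i = ω k → i = k
  f2 : ∀ p, bf p ≤ p - (N - m - (3 * B + 2 * D)) ∧ bf p ≤ 2 * B + 2 * D
  f3 : ∀ p, bf p ≤ bf (p + 1) ∧ bf (p + 1) ≤ bf p + 1
  f4 : ∀ p, N - m ≤ p → bf p = 2 * B + 2 * D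
  fw : ∀ i < s, bf (ω i) = sg' N s c t h ω S i + el (ω i)
  sS : ∀ p, ∀ q ∈ S p, q < s ∧ N - t ≤ p
  bot : ∀ j, s ≤ j → j < c → h j (N - m + j)
  top : ∀ j, m - 3 * D ≤ j → j < m → pcost N m h S j + 2 ≤
    c + (N - m + j + 1 + t - N) + (m - 1 - j) + ea (N - m + j) + el (N - m + j)
  ea0 : ∀ p < s + c, ea p = 0
  eaD : ∀ p, c + ea p ≤ D
  eas : ∀ x, s + c ≤ x → x < m → ((range s).filter (fun i => ¬ h x i)).card + ea x ≤ s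
  elD : ∀ p, el p ≤ D
  el0 : ∀ p, el p ≠ 0 → (∃ i < s, p = ω i) ∨ (N - m + s ≤ p ∧ p < N - m + s + c) ∨ N - 3 * D ≤ p

/-- The position `i` is isolated. -/
def Iso (N : ℕ) (h : ℕ → ℕ → Prop) (i : ℕ) : Prop := ∀ v < N, v ≠ i → h i v

/-- The position `q` is not used by the two stars of the colour `p`. -/
def Fr (N c s D B m : ℕ) (h : ℕ → ℕ → Prop) (ω : ℕ → ℕ) (p q : ℕ) : Prop :=
  h p q ∧ (p < N - m - (3 * B + 2 * D) ∨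
    (309 * B ≤ q ∧ q < N - m - (3 * B + 2 * D) ∧ p < N - 3 * D) ∨
    (s + c ≤ q ∧ q < m - 3 * D ∧ (q + B + (N - m) < p ∨ p < q + (N - m)) ∧
      (N - 3 * D ≤ p → h q (p - (N - m)))) ∨
    (N - m + s ≤ q ∧ q < N - m + s + c ∧ ((N - 3 * D ≤ p ∧ h q (p - (N - m))) ∨ p < N - m)) ∨
    (q < s ∧ ∃ i < s, p = ω i ∧ i ≠ q ∧ Iso N h i) ∨
    (N - m + s ≤ p ∧ p < N - m + s + c ∧
      (N - 3 * D ≤ q ∨ (m - 3 * D ≤ q ∧ q < m) ∨ ∃ i < s, q = ω i ∧ Iso N h i)))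

/-- The internal leaves of the first two stars of every colour. -/
def Out4 (N c s D B m t : ℕ) (h : ℕ → ℕ → Prop) (ω bf : ℕ → ℕ) (S : ℕ → Finset ℕ)
    (ea el : ℕ → ℕ) : Prop :=
  ∃ (x z : ℕ → ℕ) (A L : ℕ → Finset ℕ),
  (∀ p, c ≤ p → p < N → ∀ y ∈ A p, x p < N ∧ y < N ∧ y ≠ x p ∧ ¬ h (x p) y) ∧
  (∀ p, c ≤ p → p < N → ∀ y ∈ L p, z p < N ∧ y < N ∧ y ≠ z p ∧ ¬ h (z p) y ∧ z p ≠ x p ∧
    z p ∉ A p ∧ y ≠ x p ∧ y ∉ A p) ∧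
  (∀ p, c ≤ p → p < N → (A p).card + ea p + bf p + (p + 1 + t - N) + c = p + 1 ∧
    (L p).card + el p = bf p) ∧
  (∀ p, c ≤ p → p < N → ∀ q, c ≤ q → q < N → ∀ y ∈ A p, ∀ w ∈ A q,
    s(x p, y) = s(x q, w) → p = q) ∧
  (∀ p, c ≤ p → p < N → ∀ q, c ≤ q → q < N → ∀ y ∈ A p, ∀ w ∈ L q, s(x p, y) ≠ s(z q, w)) ∧
  (∀ p, c ≤ p → p < N → ∀ q, c ≤ q → q < N → ∀ y ∈ L p, ∀ w ∈ L q,
    s(z p, y) = s(z q, w) → p = q) ∧
  (∀ p, c ≤ p → p < N → ∀ q ∈ S p, q ≠ x p ∧ q ≠ z p ∧ q ∉ A p ∧ q ∉ L p) ∧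
  (∀ p, s ≤ p → x p = p) ∧ (∀ i < s, z (ω i) = i) ∧
  (∀ j, s ≤ j → j < m → z (N - m + j) = j ∧ j ∉ A (N - m + j) ∧ j ∉ L (N - m + j)) ∧
  ∀ p, s ≤ p → c ≤ p → p < N → ∀ q < N, Fr N c s D B m h ω p q →
    q ∉ A p ∧ q ∉ L p ∧ (L p ≠ ∅ → q ≠ z p)

/-- The core. -/
def Core4S : Prop := ∀ (N n c s D B m t : ℕ) (h : ℕ → ℕ → Prop) [DecidableRel h] (ω bf : ℕ → ℕ)
    (S : ℕ → Finset ℕ) (ea el : ℕ → ℕ), H4 N n c s D B m t h ω bf S ea el →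
  Out4 N c s D B m t h ω bf S ea el

end Pool.Agent.MP_f65396_co.h32n
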